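import Pool.Agent.TH464.PO.Two

set_option autoImplicit false

/-!
# The exponential law for the gaps between the almost prime values of `m` and `4 m + 1`

Let `m` be good if `m` and `4 m + 1` both have at most `r` prime factors, all larger than `X ^ (1
/ r)`. Let `V` be the product of `1 - ρ(p) / p` over the primes `p ≤ X ^ (1 / r)`. In every
interval `(X, X + Y]` with `X ^ θ ≤ Y ≤ X` the gaps between consecutive good integers have, in the
scale `1 / V`, the exponential distribution up to `ε`, uniformly in all gap lengths; more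
generally the distances between a good integer and its `k`-th good predecessor have the Gamma
distribution up to `ε`.
-/

namespace Pool.Agent.Results.MP_3df474_nt.ExponentialGaps

open Finset Filter

/-- `N` has at most `B` prime factors (with multiplicity), all of them larger than `z`. -/
def AlmostPrime (B : ℕ) (z : ℝ) (N : ℕ) : Prop :=
  N.primeFactorsList.length ≤ B ∧ ∀ p : ℕ, p.Prime → p ∣ N → z < (p : ℝ)

/-- `m` is good: `m` and `4 m + 1` both have at most `r` prime factors, all larger than `X ^ (1 / r)`. -/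
def Good (r X m : ℕ) : Prop :=
  AlmostPrime r ((X : ℝ) ^ (1 / (r : ℝ))) m ∧
    AlmostPrime r ((X : ℝ) ^ (1 / (r : ℝ))) (4 * m + 1)

open Classical in
/-- The sieve density: the product of `1 - ρ(p) / p` over the primes `p ≤ X ^ (1 / r)`, where `ρ(p)` is
the number of the `a` mod `p` with `p ∣ a` or `p ∣ 4 a + 1`. -/
noncomputable def V (r X : ℕ) : ℝ :=
  ∏ p ∈ (Finset.range (⌊(X : ℝ) ^ (1 / (r : ℝ))⌋₊ + 1)).filter Nat.Prime,
    (1 - (((Finset.range p).filter (fun a : ℕ => p ∣ a ∨ p ∣ 4 * a + 1)).card : ℝ) / p)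

open Classical in
/-- The number of the good `b` in `(X, X + Y]` with fewer than `k` good integers in `[b - T, b)`, that is,
whose `k`-th good predecessor is at distance more than `T`. For `k = 1`: the good `b` in `(X, X + Y]`
with gap more than `T` before them. -/
noncomputable def Far (r X Y k T : ℕ) : ℕ :=
  ((Finset.Ioc X (X + Y)).filter (fun b => Good r X b ∧
    ((Finset.Ico (b - T) b).filter (fun m => Good r X m)).card < k)).card

open Pool.Agent.TH464.PO Pool.Agent.TH464.PW Pool.Agent.W123.RU Pool.Agent.W123.RU.Poly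
open Pool.Agent.H373R2.T7 Pool.Agent.W123.RP

lemma good_iff (r : ℕ) (hr : 1 ≤ r) : ∀ᶠ X : ℕ in atTop, ∀ m : ℕ, m ≤ 3 * X →
    (Sf (Q f41) ⌊(X : ℝ) ^ (1 / (r : ℝ))⌋₊ m ↔ Good r X m) := by
  filter_upwards [sf_two (ln 1 0) (ln 4 1) 1 1 (ln_deg 1 0 one_ne_zero).le (ln_deg 4 1 (by norm_num)).le r hr] with X hX m hm
  have e1 : ((ln 1 0).eval (m : ℤ)).natAbs = m := by
    have e : (1 : ℤ) * (m : ℤ) + 0 = ((m : ℕ) : ℤ) := by ring
    rw [ln_eval, e, Int.natAbs_natCast]
  have e2 : ((ln 4 1).eval (m : ℤ)).natAbs = (4 * m + 1) := by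
    have e : (4 : ℤ) * (m : ℤ) + 1 = ((4 * m + 1 : ℕ) : ℤ) := by push_cast; ring
    rw [ln_eval, e, Int.natAbs_natCast]
  have h := hX m hm
  rw [e1, e2] at h
  rw [one_mul] at h
  exact h

lemma V_eq (r X : ℕ) : Vq (Q f41) ⌊(X : ℝ) ^ (1 / (r : ℝ))⌋₊ = V r X :=
  V_gen f41 (fun p a => p ∣ a ∨ p ∣ 4 * a + 1) (fun p m => by
    have e1 : (p : ℤ) ∣ (ln 1 0).eval (m : ℤ) ↔ p ∣ m := by
      have e : (1 : ℤ) * (m : ℤ) + 0 = ((m : ℕ) : ℤ) := by ring
      rw [ln_eval, e, Int.natCast_dvd_natCast]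
    have e2 : (p : ℤ) ∣ (ln 4 1).eval (m : ℤ) ↔ p ∣ 4 * m + 1 := by
      have e : (4 : ℤ) * (m : ℤ) + 1 = ((4 * m + 1 : ℕ) : ℤ) := by push_cast; ring
      rw [ln_eval, e, Int.natCast_dvd_natCast]
    unfold f41
    rw [Q_two, e1, e2]) _

open Classical in
/-- **The exponential law for the gaps** (`k = 1`, all `T`), and the Gamma law for the distances to the
`k`-th predecessor, in every short interval. -/
theorem result (θ : ℝ) (hθ : 0 < θ) (k0 : ℕ) (x ε : ℝ) (hε : 0 < ε) :
    ∃ r0 : ℕ, ∀ r : ℕ, r0 ≤ r → ∀ᶠ X : ℕ in atTop, ∀ Y : ℕ, (X : ℝ) ^ θ ≤ Y → Y ≤ X →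
      ∀ k T : ℕ, (k ≤ k0 ∨ T * V r X ≤ x) →
        |(Far r X Y k T : ℝ) - Y * V r X *
          ∑ j ∈ Finset.range k, Real.exp (-(T * V r X)) * (T * V r X) ^ j / j.factorial| ≤
            ε * (Y * V r X) :=
  pack_gaps f41 Good V f41_sys f41_noTr good_iff
    V_eq θ hθ k0 x ε hε

end Pool.Agent.Results.MP_3df474_nt.ExponentialGaps
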