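import Pool.Agent.TH899.UG.OGm

/-!
# One half of the times are gaps between the primes of the orbits of `x ↦ 4 x + 1`

Let `S x = 4 x + 1`. For every `ε > 0` there is `M` such that for EVERY multiple `N` of `M` there is
`L` such that among any `T ≥ L` consecutive multiples `j` of `N` at least `(1/2 - ε) T` are gaps: for at
least `x ^ (1 - η)` primes `p ≤ x`, for every `η > 0` and arbitrarily large `x`, the number `S^j(p)` is
prime and `S(p), ..., S^(j-1)(p)` are all composite (the question is the case `j = 1`).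

Proof: the coloured Maynard-Tao theorem above one quarter for linear forms
(`Pool.Agent.TH899.UG.quarterC`): two of any four classes of forms are hit, and helper25's theorem
on sets of differences of four classes (`Pool.Agent.W25.TF.s_maiF4`).
-/

set_option autoImplicit false

namespace Pool.Agent.Results.MP_3df474_nt.HalfOfOrbitGaps

open Filter

/-- `x ↦ 4 x + 1` -/
def S (x : ℕ) : ℕ := 4 * x + 1

theorem result (ε : ℝ) (hε : 0 < ε) :
    ∃ M : ℕ, 0 < M ∧ ∀ N : ℕ, 0 < N → M ∣ N → ∃ L : ℕ, ∀ T : ℕ, L ≤ T → ∀ u : ℕ,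
      (1 / 2 - ε) * (T : ℝ) ≤ ({k : ℕ | u < k ∧ k ≤ u + T ∧ ∀ η : ℝ, 0 < η → ∃ᶠ x : ℝ in atTop,
        x ^ (1 - η) ≤ ({p : ℕ | (p : ℝ) ≤ x ∧ p.Prime ∧ (S^[N * k] p).Prime ∧
          ∀ l, 0 < l → l < N * k → ¬ (S^[l] p).Prime}.ncard : ℝ)}.ncard : ℝ) := by
  refine Pool.Agent.TH899.UG.OG.transferA 4 1 3 (by norm_num) one_ne_zero isCoprime_one_left
    (by norm_num) (fun p _ h => ?_) (fun p j => S^[j] p) (fun p j _ => ?_) ε hε
  · have h1 : p ∣ 3 := by simpa using h
    rw [one_mul]
    exact_mod_cast h1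
  · show ((S^[j] p : ℕ) : ℤ) = _
    induction j with
    | zero => rfl
    | succ j ih =>
      rw [Function.iterate_succ_apply', Function.iterate_succ_apply', ← ih]
      show ((4 * S^[j] p + 1 : ℕ) : ℤ) = ((4 : ℕ) : ℤ) * (S^[j] p : ℕ) + 1
      push_cast
      ring

end Pool.Agent.Results.MP_3df474_nt.HalfOfOrbitGaps
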